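import Mathlib

/-!
The iterated wreath product and the elements used.
-/

set_option autoImplicit false

namespace Pool.Agent.Q2.UD

open Multiplicative

/-- the inclusion of the base group -/
def base (D Q : Type) [Group D] [Group Q] : (Q → D) →* D ≀ᵣ Q where
  toFun f := ⟨f, 1⟩
  map_one' := rfl
  map_mul' f g := by
    apply RegularWreathProduct.ext
    · funext x
      simp
    · simp

theorem base_injective (D Q : Type) [Group D] [Group Q] : Function.Injective (base D Q) := by
  intro f g h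
  exact congrArg RegularWreathProduct.left h

theorem eq_base {D Q : Type} [Group D] [Group Q] {g : D ≀ᵣ Q} (h : g.right = 1) :
    g = base D Q g.left := RegularWreathProduct.ext rfl h

theorem solvable_wreath (D Q : Type) [CommGroup D] [Group Q] [Group.IsSolvable Q] :
    Group.IsSolvable (D ≀ᵣ Q) := by
  apply Group.isSolvable_of_ker_le_range (base D Q) (RegularWreathProduct.rightHom)
  intro g hg
  exact ⟨g.left, (eq_base hg).symm⟩

theorem int_eq_one {z : Multiplicative ℤ} (hz : IsOfFinOrder z) : z = 1 := by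
  rw [isOfFinOrder_iff_pow_eq_one] at hz
  obtain ⟨n, hn, h⟩ := hz
  have h1 : n • toAdd z = 0 := by
    rw [← toAdd_pow, h]
    rfl
  rw [nsmul_eq_mul, mul_eq_zero] at h1
  rcases h1 with h1 | h1
  · exfalso
    have : (n : ℤ) = 0 := h1
    omega
  · exact toAdd.injective h1

variable (p : ℕ)

/-- the lamplighter-type group `(ℤ/p)^ℤ ⋊ ℤ` -/
abbrev LL : Type := Multiplicative (ZMod p) ≀ᵣ Multiplicative ℤ

/-- the big group `ℤ^L ⋊ L` -/
abbrev GG : Type := Multiplicative ℤ ≀ᵣ LL p

instance : Group.IsSolvable (LL p) := solvable_wreath _ _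

instance : Group.IsSolvable (GG p) := solvable_wreath _ _

theorem zmod_pow (z : Multiplicative (ZMod p)) : z ^ p = 1 := by
  apply toAdd.injective
  rw [toAdd_pow, toAdd_one, nsmul_eq_mul, CharP.cast_eq_zero, zero_mul]

theorem LL_pow {q : LL p} (hq : IsOfFinOrder q) : q ^ p = 1 := by
  have h1 : q.right = 1 := int_eq_one (RegularWreathProduct.rightHom.isOfFinOrder hq)
  rw [eq_base h1, ← map_pow]
  have : q.left ^ p = 1 := by
    funext x
    exact zmod_pow p _
  rw [this, map_one]

theorem GG_pow {g : GG p} (hg : IsOfFinOrder g) : g ^ p = 1 := by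
  have h1 : g.right ^ p = 1 := LL_pow p (RegularWreathProduct.rightHom.isOfFinOrder hg)
  have h2 : (g ^ p).right = 1 := by
    rw [← h1]
    exact map_pow (RegularWreathProduct.rightHom : GG p →* LL p) g p
  have h3 : IsOfFinOrder (g ^ p) := hg.pow
  rw [eq_base h2] at h3 ⊢
  have h4 : (g ^ p).left = 1 := by
    funext x
    apply int_eq_one
    have h5 : IsOfFinOrder (g ^ p).left := (base_injective _ _).isOfFinOrder_iff.mp h3
    exact (Pi.evalMonoidHom _ x).isOfFinOrder h5
  rw [h4, map_one]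

/-- the lamp at `n` -/
def lamp (n : ℤ) : LL p := ⟨Pi.mulSingle (ofAdd n) (ofAdd 1), 1⟩

/-- `e n`, the element of order `p` acting at the place `n` -/
def ee (n : ℤ) : GG p := RegularWreathProduct.inl (lamp p n)

/-- `t`, the shift -/
def tt : GG p := RegularWreathProduct.inl (RegularWreathProduct.inl (ofAdd 1))

/-- `v n`, reading the `n`-th coordinate -/
def vv (n : ℤ) : GG p := ⟨fun q => ofAdd (((toAdd (q.left (ofAdd n))).val : ℕ) : ℤ), 1⟩

theorem tt_pow (n : ℕ) : tt p ^ n =
    RegularWreathProduct.inl (RegularWreathProduct.inl (ofAdd (n : ℤ))) := by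
  unfold tt
  rw [← map_pow, ← map_pow, ← ofAdd_nsmul]
  simp

theorem ee_succ (n : ℤ) (m : ℤ) : (RegularWreathProduct.inl (RegularWreathProduct.inl (ofAdd m)) : GG p) *
    ee p n = ee p (n + m) * RegularWreathProduct.inl (RegularWreathProduct.inl (ofAdd m)) := by
  unfold ee
  rw [← map_mul, ← map_mul]
  congr 1
  apply RegularWreathProduct.ext
  · funext x
    simp only [RegularWreathProduct.mul_left, RegularWreathProduct.left_inl, lamp, one_mul,
      RegularWreathProduct.right_inl, Pi.mul_apply, Pi.one_apply, mul_one]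
    by_cases h : x = ofAdd (n + m)
    · subst h
      have : (ofAdd m)⁻¹ * ofAdd (n + m) = ofAdd n := by
        rw [← ofAdd_neg, ← ofAdd_add]
        congr 1
        ring
      rw [this, Pi.mulSingle_eq_same, Pi.mulSingle_eq_same]
    · have h2 : (ofAdd m)⁻¹ * x ≠ ofAdd n := by
        intro h3
        apply h
        rw [inv_mul_eq_iff_eq_mul] at h3
        rw [h3, ← ofAdd_add, add_comm]
      rw [Pi.mulSingle_eq_of_ne h2, Pi.mulSingle_eq_of_ne h]
  · simp [lamp]

theorem vv_succ (n : ℤ) (m : ℤ) : (RegularWreathProduct.inl (RegularWreathProduct.inl (ofAdd m)) : GG p) *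
    vv p n = vv p (n + m) * RegularWreathProduct.inl (RegularWreathProduct.inl (ofAdd m)) := by
  apply RegularWreathProduct.ext
  · funext q
    simp only [RegularWreathProduct.mul_left, RegularWreathProduct.left_inl, vv, one_mul,
      RegularWreathProduct.right_inl, Pi.mul_apply, Pi.one_apply, mul_one,
      RegularWreathProduct.inv_left, RegularWreathProduct.inv_right, inv_inv, Pi.inv_apply, inv_one,
      ← ofAdd_add]
    rw [add_comm m n]
  · simp [vv]

theorem comm_ve {i n : ℤ} (h : i ≠ n) : vv p n * ee p i = ee p i * vv p n := by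
  apply RegularWreathProduct.ext
  · funext q
    have h1 : (ofAdd n : Multiplicative ℤ) ≠ ofAdd i := fun h2 => h (ofAdd.injective h2).symm
    simp [vv, ee, lamp, Pi.mulSingle_eq_of_ne h1]
  · simp [vv, ee]

theorem comm_inf [Fact p.Prime] (n : ℤ) :
    ¬ IsOfFinOrder (vv p n * ee p n * (vv p n)⁻¹ * (ee p n)⁻¹) := by
  intro h
  set c := vv p n * ee p n * (vv p n)⁻¹ * (ee p n)⁻¹ with hc
  have hr : c.right = 1 := by
    rw [hc]
    simp [vv, ee]
  rw [eq_base hr] at h
  have h5 : IsOfFinOrder c.left := (base_injective _ _).isOfFinOrder_iff.mp h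
  have h6 := int_eq_one ((Pi.evalMonoidHom _ (1 : LL p)).isOfFinOrder h5)
  have h7 : c.left 1 = 1 := h6
  rw [hc] at h7
  simp [vv, ee, lamp] at h7
  have h8 := congrArg (Int.cast : ℤ → ZMod p) h7
  rw [ZMod.intCast_zmod_cast, Int.cast_zero, neg_eq_zero] at h8
  exact one_ne_zero h8

/-- functions supported on `0, …, N - 1` -/
def PP (N : ℕ) : Subgroup (Multiplicative ℤ → Multiplicative (ZMod p)) where
  carrier := {x | ∀ j, (∀ i < N, j ≠ ofAdd (i : ℤ)) → x j = 1}
  mul_mem' := by
    intro x y hx hy j hj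
    rw [Pi.mul_apply, hx j hj, hy j hj, one_mul]
  one_mem' := fun _ _ => rfl
  inv_mem' := by
    intro x hx j hj
    rw [Pi.inv_apply, hx j hj, inv_one]

theorem PP_finite [Fact p.Prime] (N : ℕ) : Finite (PP p N) := by
  have : Finite (Multiplicative (ZMod p)) := inferInstanceAs (Finite (ZMod p))
  apply Finite.of_injective
    (fun (x : PP p N) (i : Fin N) => (x.1 (ofAdd (i : ℤ)) : Multiplicative (ZMod p)))
  intro x y hxy
  apply Subtype.ext
  funext j
  by_cases h : ∀ i < N, j ≠ ofAdd (i : ℤ)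
  · rw [x.2 j h, y.2 j h]
  · push Not at h
    obtain ⟨i, hi, rfl⟩ := h
    exact congrFun hxy ⟨i, hi⟩

/-- the conjugated finite subgroup -/
def AA (n : ℕ) : Subgroup (GG p) :=
  (((PP p (n + 1)).map (base (Multiplicative (ZMod p)) (Multiplicative ℤ))).map
    (RegularWreathProduct.inl : LL p →* GG p)).map (MulAut.conj (vv p n)).toMonoidHom

instance [Fact p.Prime] (n : ℕ) : Finite (AA p n) := by
  have h0 : (PP p (n + 1) : Set (Multiplicative ℤ → Multiplicative (ZMod p))).Finite :=
    Set.finite_coe_iff.mp (PP_finite p (n + 1))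
  exact (((h0.image _).image _).image _).to_subtype

theorem ee_mem {n i : ℕ} (hi : i < n + 1) : ee p i ∈ ((PP p (n + 1)).map
    (base (Multiplicative (ZMod p)) (Multiplicative ℤ))).map
    (RegularWreathProduct.inl : LL p →* GG p) := by
  refine ⟨lamp p i, ⟨Pi.mulSingle (ofAdd (i : ℤ)) (ofAdd 1), ?_, rfl⟩, rfl⟩
  intro j hj
  exact Pi.mulSingle_eq_of_ne (hj i hi) _

theorem closure_le (n : ℕ) : Subgroup.closure
    ({x | ∃ i < n, x = ee p (i : ℕ)} ∪ {vv p n * ee p n * (vv p n)⁻¹}) ≤ AA p n := by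
  rw [Subgroup.closure_le]
  rintro x (⟨i, hi, rfl⟩ | hx)
  · refine ⟨ee p i, ee_mem p (by omega), ?_⟩
    change vv p n * ee p i * (vv p n)⁻¹ = ee p i
    rw [comm_ve p (by exact_mod_cast hi.ne), mul_inv_cancel_right]
  · rw [Set.mem_singleton_iff] at hx
    subst hx
    exact ⟨ee p n, ee_mem p (by omega), rfl⟩

/-- the generators -/
def gens : Set (GG p) := {tt p, ee p 0, vv p 0}

theorem ee_gen (n : ℕ) : ee p n ∈ Subgroup.closure (gens p) := by
  have h1 : ee p n = tt p ^ n * ee p 0 * (tt p ^ n)⁻¹ := by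
    rw [tt_pow, ee_succ, zero_add, mul_inv_cancel_right]
  have ht : tt p ∈ Subgroup.closure (gens p) := Subgroup.subset_closure (Or.inl rfl)
  have he : ee p 0 ∈ Subgroup.closure (gens p) := Subgroup.subset_closure (Or.inr (Or.inl rfl))
  rw [h1]
  exact mul_mem (mul_mem (pow_mem ht n) he) (inv_mem (pow_mem ht n))

theorem vv_gen (n : ℕ) : vv p n ∈ Subgroup.closure (gens p) := by
  have h1 : vv p n = tt p ^ n * vv p 0 * (tt p ^ n)⁻¹ := by
    rw [tt_pow, vv_succ, zero_add, mul_inv_cancel_right]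
  have ht : tt p ∈ Subgroup.closure (gens p) := Subgroup.subset_closure (Or.inl rfl)
  have he : vv p 0 ∈ Subgroup.closure (gens p) := Subgroup.subset_closure (Or.inr (Or.inr rfl))
  rw [h1]
  exact mul_mem (mul_mem (pow_mem ht n) he) (inv_mem (pow_mem ht n))

/-- The finitely generated group. -/
abbrev HH : Type := Subgroup.closure (gens p)

/-- `e n` in `HH` -/
def eH (n : ℕ) : HH p := ⟨ee p n, ee_gen p n⟩

/-- `v n` in `HH` -/
def vH (n : ℕ) : HH p := ⟨vv p n, vv_gen p n⟩

theorem HH_fg : Group.FG (HH p) := by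
  have : Finite (gens p) := by
    unfold gens
    infer_instance
  exact Group.closure_finite_fg (gens p)

theorem HH_pow {g : HH p} (hg : IsOfFinOrder g) : g ^ p = 1 := by
  have h1 : IsOfFinOrder (g : GG p) := (Subgroup.closure (gens p)).subtype.isOfFinOrder hg
  exact Subtype.ext (GG_pow p h1)

theorem HH_inf [Fact p.Prime] (n : ℕ) :
    ¬ IsOfFinOrder (vH p n * eH p n * (vH p n)⁻¹ * (eH p n)⁻¹) := by
  intro h
  exact comm_inf p n ((Subgroup.closure (gens p)).subtype.isOfFinOrder h)

theorem HH_fin [Fact p.Prime] (n : ℕ) : Finite (Subgroup.closure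
    ({x | ∃ i < n, x = eH p i} ∪ {vH p n * eH p n * (vH p n)⁻¹})) := by
  have h1 : (Subgroup.closure
    ({x | ∃ i < n, x = eH p i} ∪ {vH p n * eH p n * (vH p n)⁻¹})).map
      (Subgroup.closure (gens p)).subtype ≤ AA p n := by
    rw [MonoidHom.map_closure]
    refine le_trans (Subgroup.closure_mono ?_) (closure_le p n)
    rintro _ ⟨x, (⟨i, hi, rfl⟩ | hx), rfl⟩
    · exact Or.inl ⟨i, hi, rfl⟩
    · rw [Set.mem_singleton_iff] at hx
      subst hx
      exact Or.inr rfl
  apply Finite.of_injective (fun x : Subgroup.closure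
    ({x | ∃ i < n, x = eH p i} ∪ {vH p n * eH p n * (vH p n)⁻¹}) =>
    (⟨x.1.1, h1 ⟨x.1, x.2, rfl⟩⟩ : AA p n))
  intro x y hxy
  exact Subtype.ext (Subtype.ext (congrArg (fun z : AA p n => z.1) hxy))

end Pool.Agent.Q2.UD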