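import Mathlib

/-!
Right ideals of a group ring fixed by finite subgroups: an infinite direct sum.
-/

set_option autoImplicit false

namespace Pool.Agent.Q2.UD

open MonoidAlgebra

variable {k G : Type*} [Ring k] [Group G]

/-- The right ideal of the elements `x` of `kG` with `g x = x` for all `g ∈ A`. -/
def Inv (k : Type*) {G : Type*} [Ring k] [Group G] (A : Subgroup G) :
    Submodule (MonoidAlgebra k G)ᵐᵒᵖ (MonoidAlgebra k G) where
  carrier := {x | ∀ g ∈ A, single g 1 * x = x}
  add_mem' := by
    intro x y hx hy g hg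
    rw [mul_add, hx g hg, hy g hg]
  zero_mem' := fun g _ => mul_zero _
  smul_mem' := by
    intro c x hx g hg
    change single g 1 * (x * c.unop) = x * c.unop
    rw [← mul_assoc, hx g hg]

theorem mem_Inv {A : Subgroup G} {x : MonoidAlgebra k G} :
    x ∈ Inv k A ↔ ∀ g ∈ A, single g 1 * x = x := Iff.rfl

theorem Inv_anti {A B : Subgroup G} (h : A ≤ B) : Inv k B ≤ Inv k A := fun _ hx g hg => hx g (h hg)

theorem mem_Inv_closure {S : Set G} {x : MonoidAlgebra k G} (h : ∀ g ∈ S, single g 1 * x = x) :
    x ∈ Inv k (Subgroup.closure S) := by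
  intro g hg
  induction hg using Subgroup.closure_induction with
  | mem g hg => exact h g hg
  | one => rw [← one_def, one_mul]
  | mul a b _ _ ha hb =>
    have : (single (a * b) 1 : MonoidAlgebra k G) = single a 1 * single b 1 := by
      rw [single_mul_single, mul_one]
    rw [this, mul_assoc, hb, ha]
  | inv a _ ha =>
    have : (single a⁻¹ 1 : MonoidAlgebra k G) * single a 1 = 1 := by
      rw [single_mul_single, mul_one, inv_mul_cancel, one_def]
    calc single a⁻¹ 1 * x = single a⁻¹ 1 * (single a 1 * x) := by rw [ha]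
      _ = x := by rw [← mul_assoc, this, one_mul]

/-- An element fixed by an element of infinite order is zero. -/
theorem eq_zero_of_fix {g : G} (hg : ¬ IsOfFinOrder g) {x : MonoidAlgebra k G}
    (hx : single g 1 * x = x) : x = 0 := by
  by_contra hne
  have hne' : x.coeff ≠ 0 := fun h => hne (coeff_eq_zero.mp h)
  obtain ⟨a, ha⟩ := Finsupp.ne_iff.mp hne'
  have h1 : ∀ y, x.coeff (g * y) = x.coeff y := by
    intro y
    conv_lhs => rw [← hx]
    rw [coeff_single_mul_apply, one_mul, inv_mul_cancel_left]
  have h2 : ∀ n : ℕ, x.coeff (g ^ n * a) = x.coeff a := by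
    intro n
    induction n with
    | zero => rw [pow_zero, one_mul]
    | succ n ih => rw [pow_succ', mul_assoc, h1, ih]
  have h3 : Set.Finite (Set.range fun n : ℕ => g ^ n * a) := by
    apply (x.coeff.support.finite_toSet).subset
    rintro _ ⟨n, rfl⟩
    rw [Finset.mem_coe, Finsupp.mem_support_iff, h2]
    exact ha
  have h4 : Function.Injective fun n : ℕ => g ^ n * a := by
    intro m n h
    exact (injective_pow_iff_not_isOfFinOrder.mpr hg) (mul_right_cancel h)
  exact (Set.infinite_range_of_injective h4) h3

theorem Inv_ne_bot [Nontrivial k] (A : Subgroup G) [Finite A] : Inv k A ≠ ⊥ := by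
  classical
  have hfin : (A : Set G).Finite := Set.toFinite _
  intro h
  let x : MonoidAlgebra k G := ∑ a ∈ hfin.toFinset, single a 1
  have hx : x ∈ Inv k A := by
    intro g hg
    change single g 1 * ∑ a ∈ hfin.toFinset, single a 1 = ∑ a ∈ hfin.toFinset, single a 1
    rw [Finset.mul_sum]
    refine Finset.sum_bij (fun a _ => g * a) ?_ ?_ ?_ ?_
    · intro a ha
      rw [Set.Finite.mem_toFinset] at ha ⊢
      exact A.mul_mem hg ha
    · intro a _ b _ hab
      exact mul_left_cancel hab
    · intro b hb
      rw [Set.Finite.mem_toFinset] at hb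
      refine ⟨g⁻¹ * b, ?_, mul_inv_cancel_left g b⟩
      rw [Set.Finite.mem_toFinset]
      exact A.mul_mem (A.inv_mem hg) hb
    · intro a _
      rw [single_mul_single, mul_one]
  rw [h, Submodule.mem_bot] at hx
  have h1 : x.coeff 1 = 1 := by
    change (∑ a ∈ hfin.toFinset, (single a 1 : MonoidAlgebra k G)).coeff 1 = 1
    rw [coeff_sum, Finset.sum_apply', Finset.sum_eq_single (1 : G)]
    · rw [coeff_single, Finsupp.single_eq_same]
    · intro b _ hb
      rw [coeff_single, Finsupp.single_apply, if_neg hb]
    · intro h1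
      exact absurd (hfin.mem_toFinset.mpr A.one_mem) h1
  rw [hx] at h1
  exact zero_ne_one h1

/-- The main independence statement. -/
theorem indep (e w : ℕ → G) (hinf : ∀ n, ¬ IsOfFinOrder (w n * (e n)⁻¹)) :
    iSupIndep fun n => Inv k (Subgroup.closure ({x | ∃ i < n, x = e i} ∪ {w n})) := by
  classical
  set J : ℕ → Submodule (MonoidAlgebra k G)ᵐᵒᵖ (MonoidAlgebra k G) :=
    fun n => Inv k (Subgroup.closure ({x | ∃ i < n, x = e i} ∪ {w n})) with hJ
  have he : ∀ n i, n < i → ∀ x ∈ J i, single (e n) 1 * x = x := by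
    intro n i hni x hx
    exact hx _ (Subgroup.subset_closure (Or.inl ⟨n, hni, rfl⟩))
  have hw : ∀ n, ∀ x ∈ J n, single (w n) 1 * x = x := by
    intro n x hx
    exact hx _ (Subgroup.subset_closure (Or.inr rfl))
  have key : ∀ n, ∀ x ∈ J n, single (e n) 1 * x = x → x = 0 := by
    intro n x hx hex
    apply eq_zero_of_fix (hinf n)
    have h1 : x ∈ Inv k (Subgroup.closure {e n, w n}) := by
      apply mem_Inv_closure
      intro g hg
      rcases hg with rfl | hg
      · exact hex
      · rw [Set.mem_singleton_iff] at hg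
        rw [hg]
        exact hw n x hx
    apply h1
    apply Subgroup.mul_mem
    · exact Subgroup.subset_closure (Or.inr rfl)
    · exact Subgroup.inv_mem _ (Subgroup.subset_closure (Or.inl rfl))
  apply iSupIndep_of_dfinsupp_lsum_injective
  refine (injective_iff_map_eq_zero _).mpr ?_
  intro m hm
  by_contra hne
  have hsupp : m.support.Nonempty := by
    rw [Finset.nonempty_iff_ne_empty]
    intro h
    exact hne (DFinsupp.support_eq_empty.mp h)
  have hsum : ∑ i ∈ m.support, (m i : MonoidAlgebra k G) = 0 := by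
    rw [← hm]
    rw [DFinsupp.lsum_apply_apply, DFinsupp.sumAddHom_apply]
    rfl
  set n := m.support.min' hsupp with hn
  have hnm : n ∈ m.support := Finset.min'_mem _ _
  have h1 : (m n : MonoidAlgebra k G) = - ∑ i ∈ m.support.erase n, (m i : MonoidAlgebra k G) := by
    rw [← Finset.add_sum_erase _ _ hnm] at hsum
    exact eq_neg_of_add_eq_zero_left hsum
  have h2 : single (e n) (1 : k) * (m n : MonoidAlgebra k G) = (m n : MonoidAlgebra k G) := by
    rw [h1, mul_neg, Finset.mul_sum]
    congr 1
    apply Finset.sum_congr rfl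
    intro i hi
    rw [Finset.mem_erase] at hi
    have hlt : n < i := lt_of_le_of_ne (Finset.min'_le _ _ hi.2) (Ne.symm hi.1)
    exact he n i hlt _ (m i).2
  have h3 := key n _ (m n).2 h2
  rw [DFinsupp.mem_support_iff] at hnm
  exact hnm (Subtype.ext h3)

end Pool.Agent.Q2.UD
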